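import Pool.Agent.W2helper5.KA.Stm

/-!
Project KA, piece PWG: the power of the scalar of a closed sequence, averaged over `Γ`.
-/

set_option autoImplicit false

open Pool.Agent.W2helper5.KA

namespace Pool.Agent.W2helper77.KA

variable {k F Γ : Type} [Field k] [Group F] [Group Γ]

theorem l_one' (D : Dat k F Γ) (s : Γ) : D.l s 1 = 1 := by
  have h := D.l_xy s 1 1
  rw [mul_one, D.r_one] at h
  exact (mul_eq_left.1 h.symm)

section seq

variable (D : Dat k F Γ) (p : Γ × F)

theorem P_succ (n : ℕ) : P D p (n + 1) = U D (P D p n) := by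
  unfold P
  rw [Function.iterate_succ', Function.comp]

theorem x_succ (n : ℕ) : (P D p (n + 1)).2 = D.l (P D p n).1 (P D p n).2 := by
  rw [P_succ]; rfl

theorem t_succ (n : ℕ) : D.r (P D p (n + 1)).1 (P D p (n + 1)).2 = (P D p n).1 := by
  rw [P_succ]
  change D.r (D.r (P D p n).1 (D.l (P D p n).1 (P D p n).2)⁻¹) (D.l (P D p n).1 (P D p n).2) = _
  rw [← D.r_mul, inv_mul_cancel, D.r_one]

/-- The other product of the second components. -/
def Y : ℕ → F
  | 0 => 1
  | n + 1 => (P D p (n + 1)).2 * Y n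

theorem T_l (n : ℕ) : D.l (T D p n) p.2 = (P D p n).2 := by
  induction n with
  | zero => exact D.l_one _
  | succ n ih =>
    change D.l ((P D p n).1 * T D p n) p.2 = _
    rw [D.l_mul, ih, x_succ]

theorem x_X (n : ℕ) : (P D p n).2 * X D p n = Y D p n * p.2 := by
  induction n with
  | zero => change p.2 * 1 = 1 * p.2; rw [mul_one, one_mul]
  | succ n ih =>
    change (P D p (n + 1)).2 * ((P D p n).2 * X D p n) = (P D p (n + 1)).2 * Y D p n * p.2
    rw [ih, mul_assoc]

theorem t_X (n : ℕ) : D.l (D.r (P D p n).1 (P D p n).2) (X D p n) = Y D p n := by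
  induction n with
  | zero => exact l_one' D _
  | succ n ih =>
    rw [t_succ]
    change D.l (P D p n).1 ((P D p n).2 * X D p n) = (P D p (n + 1)).2 * Y D p n
    rw [D.l_xy, ih, x_succ]

end seq

section avg

variable [Fintype Γ] (D : Dat k F Γ)

/-- Average of `τ` over `Γ`. -/
noncomputable def β (x : F) (u : Γ) : k := ∏ s : Γ, D.τ x s u

/-- Average of `σ` over `Γ`. -/
noncomputable def A (x y : F) : k := ∏ s : Γ, D.σ s x y

theorem β_ne (x : F) (u : Γ) : β D x u ≠ 0 := Finset.prod_ne_zero_iff.2 fun _ _ => D.τ_ne _ _ _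

theorem A_ne (x y : F) : A D x y ≠ 0 := Finset.prod_ne_zero_iff.2 fun _ _ => D.σ_ne _ _ _

theorem β_one (u : Γ) : β D 1 u = 1 := Finset.prod_eq_one fun _ _ => D.τ_one₀ _ _

theorem β_one' (x : F) : β D x 1 = 1 := Finset.prod_eq_one fun _ _ => D.τ_one₂ _ _

theorem A_one (x : F) : A D x 1 = 1 := Finset.prod_eq_one fun _ _ => D.σ_one₂ _ _

theorem A_one' (y : F) : A D 1 y = 1 := Finset.prod_eq_one fun _ _ => D.σ_one₁ _ _

omit [Fintype Γ] in
theorem r_bij (x : F) : Function.Bijective fun s : Γ => D.r s x := by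
  refine ⟨fun s t h => ?_, fun s => ⟨D.r s x⁻¹, ?_⟩⟩
  · have h1 : D.r (D.r s x) x⁻¹ = D.r (D.r t x) x⁻¹ := by
      have : D.r s x = D.r t x := h
      rw [this]
    rwa [← D.r_mul, ← D.r_mul, mul_inv_cancel, D.r_one, D.r_one] at h1
  · change D.r (D.r s x⁻¹) x = s
    rw [← D.r_mul, inv_mul_cancel, D.r_one]

theorem τ_pow (x : F) (t u : Γ) :
    D.τ x t u ^ Fintype.card Γ * β D x (t * u) = β D x u * β D (D.l u x) t := by
  have h : ∏ s : Γ, (D.τ x (s * t) u * D.τ (D.l u x) s t) =
      ∏ s : Γ, (D.τ x s (t * u) * D.τ x t u) := Finset.prod_congr rfl fun s _ => D.coc₂ x s t u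
  rw [Finset.prod_mul_distrib, Finset.prod_mul_distrib, Finset.prod_const, Finset.card_univ] at h
  have h1 : ∏ s : Γ, D.τ x (s * t) u = β D x u :=
    Fintype.prod_equiv (Equiv.mulRight t) _ _ fun s => rfl
  rw [h1] at h
  rw [mul_comm]
  exact h.symm

theorem σ_pow (t : Γ) (x y : F) :
    A D (D.l t x) (D.l (D.r t x) y) * D.σ t x y ^ Fintype.card Γ * β D x t * β D y (D.r t x) =
      A D x y * β D (x * y) t := by
  have h : ∏ s : Γ, (D.σ (s * t) x y * D.τ (x * y) s t) =
      ∏ s : Γ, (D.σ s (D.l t x) (D.l (D.r t x) y) * D.σ t x y * D.τ x s t *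
        D.τ y (D.r s (D.l t x)) (D.r t x)) := Finset.prod_congr rfl fun s _ => D.coc₃ s t x y
  simp only [Finset.prod_mul_distrib] at h
  rw [Finset.prod_const, Finset.card_univ] at h
  have h1 : ∏ s : Γ, D.σ (s * t) x y = A D x y :=
    Fintype.prod_equiv (Equiv.mulRight t) _ _ fun s => rfl
  have h2 : ∏ s : Γ, D.τ y (D.r s (D.l t x)) (D.r t x) = β D y (D.r t x) :=
    Fintype.prod_equiv (Equiv.ofBijective _ (r_bij D (D.l t x))) _ _ fun s => rfl
  rw [h1, h2] at h
  exact h.symm

theorem A_coc (x y z : F) : A D y z * A D x (y * z) = A D x y * A D (x * y) z := by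
  have h : ∏ s : Γ, (D.σ (D.r s x) y z * D.σ s x (y * z)) =
      ∏ s : Γ, (D.σ s x y * D.σ s (x * y) z) := Finset.prod_congr rfl fun s _ => D.coc₁ s x y z
  rw [Finset.prod_mul_distrib, Finset.prod_mul_distrib] at h
  have h1 : ∏ s : Γ, D.σ (D.r s x) y z = A D y z :=
    Fintype.prod_equiv (Equiv.ofBijective _ (r_bij D x)) _ _ fun s => rfl
  rw [h1] at h
  exact h

theorem main (p : Γ × F) (n : ℕ) :
    c D p n ^ Fintype.card Γ * β D p.2 (T D p n) * A D (P D p n).2 (X D p n) =
      β D (X D p n) (D.r (P D p n).1 (P D p n).2) * A D (Y D p n) p.2 := by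
  induction n with
  | zero =>
    change (1 : k) ^ Fintype.card Γ * β D p.2 1 * A D p.2 1 = β D 1 _ * A D 1 p.2
    rw [one_pow, β_one', A_one, β_one, A_one', one_mul, one_mul]
  | succ n ih =>
    have e1 := τ_pow D p.2 (P D p n).1 (T D p n)
    have e2 := σ_pow D (P D p n).1 (P D p n).2 (X D p n)
    have e3 := A_coc D (P D p (n + 1)).2 (Y D p n) p.2
    rw [T_l] at e1
    rw [t_X, ← x_succ] at e2
    rw [← x_X] at e3
    rw [t_succ]
    change (D.τ p.2 (P D p n).1 (T D p n) * D.σ (P D p n).1 (P D p n).2 (X D p n) * c D p n) ^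
        Fintype.card Γ * β D p.2 ((P D p n).1 * T D p n) *
        A D (P D p (n + 1)).2 ((P D p n).2 * X D p n) =
      β D ((P D p n).2 * X D p n) (P D p n).1 * A D ((P D p (n + 1)).2 * Y D p n) p.2
    have hK : A D (P D p (n + 1)).2 (Y D p n) * β D (X D p n) (D.r (P D p n).1 (P D p n).2) ≠ 0 :=
      mul_ne_zero (A_ne D _ _) (β_ne D _ _)
    refine mul_left_cancel₀ hK ?_
    rw [mul_pow, mul_pow]
    generalize D.τ p.2 (P D p n).1 (T D p n) ^ Fintype.card Γ = τg at *
    generalize D.σ (P D p n).1 (P D p n).2 (X D p n) ^ Fintype.card Γ = σg at *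
    generalize c D p n ^ Fintype.card Γ = cg at *
    generalize β D p.2 ((P D p n).1 * T D p n) = b1 at *
    generalize β D p.2 (T D p n) = b2 at *
    generalize β D (P D p n).2 (P D p n).1 = b3 at *
    generalize β D (X D p n) (D.r (P D p n).1 (P D p n).2) = b4 at *
    generalize β D ((P D p n).2 * X D p n) (P D p n).1 = b5 at *
    generalize A D (P D p (n + 1)).2 (Y D p n) = a1 at *
    generalize A D (P D p n).2 (X D p n) = a2 at *
    generalize A D (Y D p n) p.2 = a3 at *
    generalize A D (P D p (n + 1)).2 ((P D p n).2 * X D p n) = a4 at *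
    generalize A D ((P D p (n + 1)).2 * Y D p n) p.2 = a5 at *
    calc a1 * b4 * (τg * σg * cg * b1 * a4) = (τg * b1) * (a1 * σg * b4) * cg * a4 := by ring
      _ = (b2 * b3) * (a1 * σg * b4) * cg * a4 := by rw [e1]
      _ = (a1 * σg * b3 * b4) * (b2 * cg * a4) := by ring
      _ = (a2 * b5) * (b2 * cg * a4) := by rw [e2]
      _ = (cg * b2 * a2) * (b5 * a4) := by ring
      _ = b4 * a3 * (b5 * a4) := by rw [ih]
      _ = b4 * b5 * (a3 * a4) := by ring
      _ = b4 * b5 * (a1 * a5) := by rw [e3]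
      _ = a1 * b4 * (b5 * a5) := by ring

end avg

theorem PWG : P_PWG := by
  intro k F Γ _ _ _ _ _ D p N hT hX
  have h := main D p N
  have hx : (P D p N).2 = p.2 := by rw [← T_l, hT, D.l_one]
  have hY : Y D p N = 1 := by
    have := x_X D p N
    rw [hX, mul_one, hx] at this
    exact (mul_eq_right.1 this.symm)
  rw [hT, hX, hY, β_one', A_one, β_one, A_one'] at h
  simpa using h

end Pool.Agent.W2helper77.KA
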